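import Pool.Agent.X190.TW.Elem
import Pool.Agent.H61R3.KD4

set_option autoImplicit false

universe u

noncomputable section

namespace Pool.Agent.Results.MP_0f25e6_al.CharacterTwist

/-- `α * f` is nonzero for every nonzero square-summable `f`, where
`(α * f)(g) = ∑ α(k) f(k⁻¹ g)`. -/
def Regular {G : Type u} [Group G] (α : G →₀ ℂ) : Prop :=
  ∀ f : G → ℂ, Memℓp f 2 → f ≠ 0 → ∃ g : G, ∑ k ∈ α.support, α k * f (k⁻¹ * g) ≠ 0

/-- All square-summable `f` with `α * f = 0`. -/
def kernel {G : Type u} [Group G] (α : G →₀ ℂ) : Set (lp (fun _ : G => ℂ) 2) :=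
  {f | ∀ g : G, ∑ k ∈ α.support, α k * f (k⁻¹ * g) = 0}

open Classical in
/-- The von Neumann dimension of the kernel of left convolution by `α`: one minus the square of the
distance from the basis vector at the identity of `G` to the kernel (this is the squared length of
the projection of that vector to the kernel). -/
def kerDim {G : Type u} [Group G] (α : G →₀ ℂ) : ℝ :=
  1 - Metric.infDist (lp.single 2 (1 : G) (1 : ℂ)) (kernel α) ^ 2

theorem kerDim_eq {G : Type u} [Group G] (α : G →₀ ℂ) : kerDim α = X190.TW.kc α :=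
  W649.ZL.kerDim_eq_vd α

theorem regular_iff {G : Type u} [Group G] (α : G →₀ ℂ) : Regular α ↔ kerDim α ≤ 0 := by
  rw [kerDim_eq]
  constructor
  · intro h
    exact (W649.ZL.vd_ker_of_injective _ ((W649.ZL.regular_iff α).1 h)).le
  · intro h
    exact (W649.ZL.regular_iff α).2 (W649.ZL.injective_of_vd_eq_zero _ (W649.ZL.cop_eqv α) h)

/-- the bound by two coefficients, for the present definition of the dimension -/
theorem pair {G : Type u} [Group G] (β : G →₀ ℂ) (x y : G)
    (hxy : ¬ IsOfFinOrder (x⁻¹ * y)) (hx : β x ≠ 0) (hy : β y ≠ 0) (c : ℝ)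
    (hc : c = ∑ z ∈ β.support, ‖β z‖ - ‖β x‖ - ‖β y‖) :
    kerDim β ≤ Real.arccos ((‖β x‖ ^ 2 + ‖β y‖ ^ 2 - c ^ 2) / (2 * (‖β x‖ * ‖β y‖))) / Real.pi := by
  classical
  have h := H61R3NG.main (MonoidAlgebra.ofCoeff β) x y hxy hx hy c hc
  refine le_trans (le_of_eq ?_) h
  set V := LinearMap.ker (H61R3NG.Top G (MonoidAlgebra.ofCoeff β) :
    H61R3NG.E2 G →ₗ[ℂ] H61R3NG.E2 G) with hV
  have hker : kernel β = (V : Set (H61R3NG.E2 G)) := by
    ext f
    simp only [kernel, SetLike.mem_coe, hV, LinearMap.mem_ker]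
    constructor
    · intro h
      apply lp.ext
      funext g
      have := H61R3NG.Top_apply_apply (MonoidAlgebra.ofCoeff β) f g
      rw [show ((H61R3NG.Top G (MonoidAlgebra.ofCoeff β) :
        H61R3NG.E2 G →ₗ[ℂ] H61R3NG.E2 G) f) = H61R3NG.Top G (MonoidAlgebra.ofCoeff β) f from rfl,
        this]
      exact h g
    · intro h g
      have h' : H61R3NG.Top G (MonoidAlgebra.ofCoeff β) f = 0 := h
      have := H61R3NG.Top_apply_apply (MonoidAlgebra.ofCoeff β) f g
      rw [h'] at this
      exact this.symm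
  unfold kerDim
  rw [hker]
  set d : H61R3NG.E2 G := H61R3NG.dl 1 with hd
  have hd2 : (lp.single 2 (1 : G) (1 : ℂ) : H61R3NG.E2 G) = d := by
    rw [hd]
    rfl
  rw [hd2]
  have h1 : Metric.infDist d (V : Set (H61R3NG.E2 G)) = ‖d - V.starProjection d‖ := by
    rw [Submodule.starProjection_minimal, Metric.infDist_eq_iInf]
    simp only [dist_eq_norm]
    rfl
  rw [h1]
  have h2 : ‖d‖ ^ 2 = ‖V.starProjection d‖ ^ 2 + ‖Vᗮ.starProjection d‖ ^ 2 :=
    Submodule.norm_sq_eq_add_norm_sq_starProjection d V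
  have h3 : Vᗮ.starProjection d = d - V.starProjection d := by
    rw [← Submodule.starProjection_orthogonal_val]
  have h4 : ‖d‖ = 1 := by
    rw [← hd2]
    simp
  rw [h3, h4] at h2
  unfold H61R3NG.kd H61R3NG.xi
  rw [← hd]
  linarith

/-- the twisted element -/
def tw {G : Type u} [Group G] (χ : G →* ℂˣ) (α : G →₀ ℂ) : G →₀ ℂ :=
  Finsupp.onFinset α.support (fun g => (χ g : ℂ) * α g) (by
    intro g hg
    rw [Finsupp.mem_support_iff]
    intro h0
    exact hg (by rw [h0, mul_zero]))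

theorem tw_apply {G : Type u} [Group G] (χ : G →* ℂˣ) (α : G →₀ ℂ) (g : G) :
    tw χ α g = (χ g : ℂ) * α g := rfl

theorem tw_support {G : Type u} [Group G] (χ : G →* ℂˣ) (α : G →₀ ℂ) :
    (tw χ α).support = α.support := by
  ext g
  rw [Finsupp.mem_support_iff, Finsupp.mem_support_iff, tw_apply]
  constructor
  · intro h h0
    exact h (by rw [h0, mul_zero])
  · intro h
    exact mul_ne_zero (χ g).ne_zero h

/-- **Characters which are not unitary.** Let `G` be any group and `α` an element of the complex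
group algebra.

1. Let `χ` be any homomorphism from `G` to the nonzero complex numbers, and let `β` be the twisted
   element with the coefficients `χ(g) α(g)`. Then the kernels of `α` and `β` on `ℓ²(G)` have the
   same von Neumann dimension; in particular `β` is regular if and only if `α` is.
2. Let `l` be any homomorphism from `G` to the real numbers with `l(g) ≥ m` on the support of `α`.
   The kernel dimension of `α` is at most that of its part on which `l = m`.
3. Let `x`, `y` be in the support of `α` such that `x⁻¹ y` has infinite order, let `χ` be as in 1,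
   `a = |χ(x) α(x)|`, `b = |χ(y) α(y)|` and let `c` be the sum of the `|χ(z) α(z)|` for the other
   `z`. Then the kernel dimension of `α` is at most `arccos ((a² + b² - c²) / (2ab)) / π`.
4. In particular `α` is regular if for some `χ` one number `|χ(x) α(x)|` is at least the sum of the
   others and `x⁻¹ y` has infinite order for some `y` in the support. -/
theorem result {G : Type u} [Group G] (α : G →₀ ℂ) :
    (∀ (χ : G →* ℂˣ) (β : G →₀ ℂ), (∀ g, β g = (χ g : ℂ) * α g) →
      kerDim β = kerDim α ∧ (Regular β ↔ Regular α)) ∧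
    (∀ (l : G →* Multiplicative ℝ) (m : ℝ), (∀ g ∈ α.support, m ≤ (l g).toAdd) →
      kerDim α ≤ kerDim (α.filter (fun g => (l g).toAdd = m))) ∧
    (∀ (χ : G →* ℂˣ) (x y : G), x ∈ α.support → y ∈ α.support → ¬ IsOfFinOrder (x⁻¹ * y) →
      ∀ a b c : ℝ, a = ‖(χ x : ℂ) * α x‖ → b = ‖(χ y : ℂ) * α y‖ →
        c = ∑ z ∈ α.support, ‖(χ z : ℂ) * α z‖ - a - b →
        kerDim α ≤ Real.arccos ((a ^ 2 + b ^ 2 - c ^ 2) / (2 * a * b)) / Real.pi) ∧
    (∀ (χ : G →* ℂˣ) (x y : G), x ∈ α.support → y ∈ α.support → ¬ IsOfFinOrder (x⁻¹ * y) →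
      ∑ z ∈ α.support, ‖(χ z : ℂ) * α z‖ ≤ 2 * ‖(χ x : ℂ) * α x‖ → Regular α) := by
  classical
  have h1 : ∀ (χ : G →* ℂˣ) (β : G →₀ ℂ), (∀ g, β g = (χ g : ℂ) * α g) →
      kerDim β = kerDim α := by
    intro χ β hβ
    rw [kerDim_eq, kerDim_eq]
    exact X190.TW.kc_twist χ α β hβ
  have h3 : ∀ (χ : G →* ℂˣ) (x y : G), x ∈ α.support → y ∈ α.support →
      ¬ IsOfFinOrder (x⁻¹ * y) → ∀ a b c : ℝ, a = ‖(χ x : ℂ) * α x‖ → b = ‖(χ y : ℂ) * α y‖ →
        c = ∑ z ∈ α.support, ‖(χ z : ℂ) * α z‖ - a - b →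
        kerDim α ≤ Real.arccos ((a ^ 2 + b ^ 2 - c ^ 2) / (2 * a * b)) / Real.pi := by
    intro χ x y hx hy hxy a b c ha hb hc
    have h := pair (tw χ α) x y hxy
      (mul_ne_zero (χ x).ne_zero (Finsupp.mem_support_iff.1 hx))
      (mul_ne_zero (χ y).ne_zero (Finsupp.mem_support_iff.1 hy)) c (by
        rw [hc, tw_support, ha, hb]
        rfl)
    rw [h1 χ (tw χ α) (fun g => tw_apply χ α g), tw_apply, tw_apply, ← ha, ← hb, ← mul_assoc] at h
    exact h
  refine ⟨fun χ β hβ => ⟨h1 χ β hβ, ?_⟩, ?_, h3, ?_⟩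
  · rw [regular_iff, regular_iff, h1 χ β hβ]
  · intro l m hm
    rw [kerDim_eq, kerDim_eq]
    refine X190.TW.kc_face (fun g => (l g).toAdd) (fun x y => by rw [map_mul]; rfl) m α _ ?_ ?_ ?_
    · intro g hg
      exact hm g (Finsupp.mem_support_iff.2 hg)
    · intro g hg
      exact Finsupp.filter_apply_pos _ _ hg
    · intro g hg
      exact Finsupp.filter_apply_neg _ _ hg
  · intro χ x y hx hy hxy hsum
    have hxne : x ≠ y := by
      rintro rfl
      rw [inv_mul_cancel] at hxy
      exact hxy IsOfFinOrder.one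
    have ha : 0 < ‖(χ x : ℂ) * α x‖ :=
      norm_pos_iff.2 (mul_ne_zero (χ x).ne_zero (Finsupp.mem_support_iff.1 hx))
    have hb : 0 < ‖(χ y : ℂ) * α y‖ :=
      norm_pos_iff.2 (mul_ne_zero (χ y).ne_zero (Finsupp.mem_support_iff.1 hy))
    rw [regular_iff]
    refine (h3 χ x y hx hy hxy _ _ _ rfl rfl rfl).trans (le_of_eq ?_)
    set a := ‖(χ x : ℂ) * α x‖ with had
    set b := ‖(χ y : ℂ) * α y‖ with hbd
    set S := ∑ z ∈ α.support, ‖(χ z : ℂ) * α z‖ with hS
    have hc0 : 0 ≤ S - a - b := by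
      have hsub : ({x, y} : Finset G) ⊆ α.support := by
        intro z hz
        rcases Finset.mem_insert.1 hz with rfl | hz
        · exact hx
        · rw [Finset.mem_singleton.1 hz]; exact hy
      have := Finset.sum_le_sum_of_subset_of_nonneg hsub
        (f := fun z => ‖(χ z : ℂ) * α z‖) (fun _ _ _ => norm_nonneg _)
      rw [Finset.sum_pair hxne] at this
      linarith
    have hge : 1 ≤ (a ^ 2 + b ^ 2 - (S - a - b) ^ 2) / (2 * a * b) := by
      rw [le_div_iff₀ (by positivity)]
      nlinarith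
    rw [Real.arccos_eq_zero.2 hge, zero_div]

end Pool.Agent.Results.MP_0f25e6_al.CharacterTwist
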