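import Pool.Agent.X190.NC.Higman

set_option autoImplicit false

universe u

namespace Pool.Agent.Results.MP_0f25e6_al.NormalizedCoset

/-- `α * f` is nonzero for every nonzero square-summable `f`, where
`(α * f)(g) = ∑ α(k) f(k⁻¹ g)`. -/
def Regular {G : Type u} [Group G] (α : G →₀ ℂ) : Prop :=
  ∀ f : G → ℂ, Memℓp f 2 → f ≠ 0 → ∃ g : G, ∑ k ∈ α.support, α k * f (k⁻¹ * g) ≠ 0

/-- All nonzero elements of the complex group algebra are regular. -/
def AnalyticDomain (H : Type u) [Group H] : Prop := ∀ a : H →₀ ℂ, a ≠ 0 → Regular a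

/-- All units of the complex group algebra are scalar multiples of group elements. -/
def TrivialUnits (H : Type u) [Group H] : Prop :=
  ∀ u : (MonoidAlgebra ℂ H)ˣ, ∃ (h : H) (c : ℂ), (u : MonoidAlgebra ℂ H) = MonoidAlgebra.single h c

/-- A group is locally indicable if every nontrivial finitely generated subgroup has a nontrivial
homomorphism to the group of integers. -/
def LocallyIndicable (H : Type u) [Group H] : Prop :=
  ∀ K : Subgroup H, K.FG → K ≠ ⊥ → ∃ φ : K →* Multiplicative ℤ, ∃ k, φ k ≠ 1

/-- 1. For a locally indicable group all nonzero elements of the complex group algebra are regular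
   and all its units are trivial.
2. Let `H` be a subgroup of any group `G` for whose group algebra both statements of 1 hold, let
   `x` be an element of `G` which normalises `H`, and let `α` be an element of the complex group
   algebra of `G` with `α(x) ≠ 0` whose support lies in `H` with the possible exception of `x`.
   Then `α` is regular, unless its support consists of `x` and one element `h ≠ x` of `H` such that
   `h⁻¹ x` has finite order.
3. In particular: let `G` be torsion-free and let `α ≠ 0` have in its support at most one element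
   `x` outside a locally indicable subgroup `H` with `x H x⁻¹ = H`. Then `α` is regular. -/
theorem result :
    (∀ (H : Type u) [Group H], LocallyIndicable H → AnalyticDomain H ∧ TrivialUnits H) ∧
    (∀ (G : Type u) [Group G] (H : Subgroup G) (x : G), (∀ h, h ∈ H ↔ x * h * x⁻¹ ∈ H) →
      AnalyticDomain H → TrivialUnits H → ∀ α : G →₀ ℂ, α x ≠ 0 →
        (∀ g ∈ α.support, g ≠ x → g ∈ H) →
        Regular α ∨ ∃ h ∈ H, h ≠ x ∧ (∀ g, g ∈ α.support ↔ g = x ∨ g = h) ∧
          IsOfFinOrder (h⁻¹ * x)) ∧
    (∀ (G : Type u) [Group G] (H : Subgroup G) (x : G), (∀ g : G, IsOfFinOrder g → g = 1) →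
      LocallyIndicable H → (∀ h, h ∈ H ↔ x * h * x⁻¹ ∈ H) → ∀ α : G →₀ ℂ, α ≠ 0 →
        (∀ g ∈ α.support, g ≠ x → g ∈ H) → Regular α) := by
  classical
  have hreg : ∀ (G : Type u) [Group G] (α : G →₀ ℂ),
      Regular α ↔ Function.Injective (W649.ZL.cop α) := fun G _ α => W649.ZL.regular_iff α
  have h1 : ∀ (H : Type u) [Group H], LocallyIndicable H → AnalyticDomain H ∧ TrivialUnits H := by
    intro H _ hH
    refine ⟨?_, X190.NC.tu_of_LI hH⟩
    intro a ha
    exact (hreg H a).2 (X190.NC.az_of_LI hH a ha)
  have h2 : ∀ (G : Type u) [Group G] (H : Subgroup G) (x : G), (∀ h, h ∈ H ↔ x * h * x⁻¹ ∈ H) →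
      AnalyticDomain H → TrivialUnits H → ∀ α : G →₀ ℂ, α x ≠ 0 →
        (∀ g ∈ α.support, g ≠ x → g ∈ H) →
        Regular α ∨ ∃ h ∈ H, h ≠ x ∧ (∀ g, g ∈ α.support ↔ g = x ∨ g = h) ∧
          IsOfFinOrder (h⁻¹ * x) := by
    intro G _ H x hx hA hT α hαx hα
    have hA' : X190.NC.AZ H := fun a ha => (hreg H a).1 (hA a ha)
    obtain ⟨b, hb⟩ := X190.NC.exists_inc H (MonoidAlgebra.ofCoeff (α.erase x)) (by
      intro g hg
      change g ∈ (α.erase x).support at hg
      rw [Finsupp.support_erase, Finset.mem_erase] at hg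
      exact hα g hg.2 hg.1)
    have hdec : (MonoidAlgebra.single x (α x) + X190.NC.inc H b).coeff = α := by
      rw [hb]
      exact Finsupp.single_add_erase x α
    have hmain := X190.NC.main hx hA' hT b (α x) hαx
    rw [hdec] at hmain
    by_cases hbad : ∀ (h : H) (a : ℂ), a ≠ 0 → b = MonoidAlgebra.single h a →
      ¬ IsOfFinOrder ((h : G)⁻¹ * x)
    · exact Or.inl ((hreg G α).2 (hmain hbad))
    · push Not at hbad
      obtain ⟨h, a, ha, hba, hfin⟩ := hbad
      have her : α.erase x = Finsupp.single (h : G) a := by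
        have h3 := congrArg MonoidAlgebra.coeff hb
        rw [hba, X190.NC.inc_single] at h3
        exact h3.symm
      have hhx : (h : G) ≠ x := by
        intro h0
        have h3 := congrArg (fun F : G →₀ ℂ => F x) her
        simp only [Finsupp.erase_same] at h3
        rw [← h0, Finsupp.single_eq_same] at h3
        exact ha h3.symm
      refine Or.inr ⟨h, h.2, hhx, ?_, hfin⟩
      intro g
      rw [Finsupp.mem_support_iff]
      by_cases hg : g = x
      · rw [hg]
        simp [hαx]
      · have h3 : α g = (Finsupp.single (h : G) a) g := by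
          rw [← her, Finsupp.erase_ne hg]
        rw [h3]
        by_cases hgh : g = (h : G)
        · rw [hgh]
          simp [ha]
        · rw [Finsupp.single_apply, if_neg (Ne.symm hgh)]
          simp [hg, hgh]
  refine ⟨h1, h2, ?_⟩
  intro G _ H x htf hH hx α hα0 hα
  obtain ⟨hA, hT⟩ := h1 H hH
  by_cases hαx : α x = 0
  · refine (hreg G α).2 (W649.ZL.LI_subgroup_injective H hH α ?_ hα0)
    intro g hg
    refine hα g hg ?_
    rintro rfl
    exact (Finsupp.mem_support_iff.1 hg) hαx
  · rcases h2 G H x hx hA hT α hαx hα with h3 | ⟨h, _, hhx, _, hfin⟩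
    · exact h3
    · exact absurd (inv_mul_eq_one.1 (htf _ hfin)) hhx

end Pool.Agent.Results.MP_0f25e6_al.NormalizedCoset
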