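import Pool.Agent.X190.LQ.Face
import Pool.Agent.X190.NC.Higman

set_option autoImplicit false

universe u

namespace Pool.Agent.Results.MP_0f25e6_al.QuotientLocallyIndicable

/-- `α * f` is nonzero for every nonzero square-summable `f`, where
`(α * f)(g) = ∑ α(k) f(k⁻¹ g)`. -/
def Regular {G : Type u} [Group G] (α : G →₀ ℂ) : Prop :=
  ∀ f : G → ℂ, Memℓp f 2 → f ≠ 0 → ∃ g : G, ∑ k ∈ α.support, α k * f (k⁻¹ * g) ≠ 0

/-- All square-summable `f` with `α * f = 0`. -/
def kernel {G : Type u} [Group G] (α : G →₀ ℂ) : Set (lp (fun _ : G => ℂ) 2) :=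
  {f | ∀ g : G, ∑ k ∈ α.support, α k * f (k⁻¹ * g) = 0}

open Classical in
/-- The von Neumann dimension of the kernel of left convolution by `α`: one minus the square of the
distance from the basis vector at the identity of `G` to the kernel (this is the squared length of
the projection of that vector to the kernel). -/
noncomputable def kerDim {G : Type u} [Group G] (α : G →₀ ℂ) : ℝ :=
  1 - Metric.infDist (lp.single 2 (1 : G) (1 : ℂ)) (kernel α) ^ 2

/-- A group is locally indicable if every nontrivial finitely generated subgroup has a nontrivial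
homomorphism to the group of integers. -/
def LocallyIndicable (H : Type u) [Group H] : Prop :=
  ∀ K : Subgroup H, K.FG → K ≠ ⊥ → ∃ φ : K →* Multiplicative ℤ, ∃ k, φ k ≠ 1

open Classical in
/-- The part of `α` on the fibre of `π` which contains `g`. -/
noncomputable def fibre {G Q : Type u} [Group G] [Group Q] (π : G →* Q) (α : G →₀ ℂ) (g : G) :
    G →₀ ℂ := α.filter (fun h => π h = π g)

theorem kerDim_eq {G : Type u} [Group G] (α : G →₀ ℂ) : kerDim α = X190.TW.kc α :=
  W649.ZL.kerDim_eq_vd α

theorem regular_iff {G : Type u} [Group G] (α : G →₀ ℂ) : Regular α ↔ kerDim α ≤ 0 := by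
  rw [kerDim_eq]
  constructor
  · intro h
    exact (W649.ZL.vd_ker_of_injective _ ((W649.ZL.regular_iff α).1 h)).le
  · intro h
    exact (W649.ZL.regular_iff α).2 (W649.ZL.injective_of_vd_eq_zero _ (W649.ZL.cop_eqv α) h)

/-- Let `π` be a homomorphism from a group `G` to a locally indicable group `Q`, for example the
projection to the quotient by a normal subgroup with a locally indicable quotient.

1. For every nonzero `α` in the complex group algebra of `G` there are elements `g₁`, `g₂` of its
   support such that the kernel dimension of `α` on `ℓ²(G)` is at most those of the parts of `α` on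
   the fibres of `π` through `g₁` and `g₂`; the two fibres can be taken distinct if the support of
   `α` meets more than one fibre.
2. In particular `α` is regular if its parts on all fibres, or on all fibres except one of at
   least two, are regular.
3. If all nonzero elements of the group algebra of the kernel of `π` are regular, then all nonzero
   elements of the group algebra of `G` are regular. -/
theorem result {G Q : Type u} [Group G] [Group Q] (π : G →* Q) (hQ : LocallyIndicable Q) :
    (∀ α : G →₀ ℂ, α ≠ 0 → ∃ g₁ ∈ α.support, ∃ g₂ ∈ α.support,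
      ((∃ g ∈ α.support, ∃ h ∈ α.support, π g ≠ π h) → π g₁ ≠ π g₂) ∧
      kerDim α ≤ kerDim (fibre π α g₁) ∧ kerDim α ≤ kerDim (fibre π α g₂)) ∧
    (∀ (α : G →₀ ℂ) (x y : G), x ∈ α.support → y ∈ α.support →
      (π x ≠ π y ∨ Regular (fibre π α x)) →
      (∀ g ∈ α.support, π g ≠ π x → Regular (fibre π α g)) → Regular α) ∧
    ((∀ b : π.ker →₀ ℂ, b ≠ 0 → Regular b) → ∀ α : G →₀ ℂ, α ≠ 0 → Regular α) := by
  classical
  have h1 : ∀ α : G →₀ ℂ, α ≠ 0 → ∃ g₁ ∈ α.support, ∃ g₂ ∈ α.support,
      ((∃ g ∈ α.support, ∃ h ∈ α.support, π g ≠ π h) → π g₁ ≠ π g₂) ∧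
      kerDim α ≤ kerDim (fibre π α g₁) ∧ kerDim α ≤ kerDim (fibre π α g₂) := by
    intro α hα
    obtain ⟨q1, hq1, q2, hq2, h2, h3, h4⟩ := X190.LQ.extreme hQ π _ α rfl hα
    obtain ⟨g1, hg1, rfl⟩ := Finset.mem_image.1 hq1
    obtain ⟨g2, hg2, rfl⟩ := Finset.mem_image.1 hq2
    refine ⟨g1, hg1, g2, hg2, ?_, ?_, ?_⟩
    · rintro ⟨g, hg, h, hh, hgh⟩
      apply h2
      by_contra hcon
      push Not at hcon
      apply hgh
      exact Finset.card_le_one.1 (Nat.lt_succ_iff.1 hcon) _ (Finset.mem_image_of_mem π hg) _
        (Finset.mem_image_of_mem π hh)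
    · rw [kerDim_eq, kerDim_eq]
      unfold fibre
      convert h3
    · rw [kerDim_eq, kerDim_eq]
      unfold fibre
      convert h4
  refine ⟨h1, ?_, ?_⟩
  · intro α x y hx hy hxy hreg
    have hα : α ≠ 0 := by
      rintro rfl
      simp at hx
    obtain ⟨g1, hg1, g2, hg2, h2, h3, h4⟩ := h1 α hα
    have key : ∀ g ∈ α.support, π g ≠ π x → kerDim α ≤ kerDim (fibre π α g) → Regular α := by
      intro g hg hgx hle
      rw [regular_iff]
      exact hle.trans ((regular_iff _).1 (hreg g hg hgx))
    by_cases e1 : π g1 = π x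
    · by_cases e2 : π g2 = π x
      · have hno : ¬ ∃ g ∈ α.support, ∃ h ∈ α.support, π g ≠ π h := by
          intro h
          exact h2 h (e1.trans e2.symm)
        push Not at hno
        rcases hxy with hxy | hxy
        · exact absurd (hno x hx y hy) hxy
        · rw [regular_iff]
          refine h3.trans ?_
          have : fibre π α g1 = fibre π α x := by
            unfold fibre
            rw [e1]
          rw [this]
          exact (regular_iff _).1 hxy
      · exact key g2 hg2 e2 h4
    · exact key g1 hg1 e1 h3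
  · intro hN α hα
    obtain ⟨g1, hg1, _, _, _, h3, _⟩ := h1 α hα
    rw [regular_iff]
    refine h3.trans ((regular_iff _).1 ?_)
    refine (W649.ZL.regular_iff _).2 ?_
    set γ := fibre π α g1 with hγ
    have hγs : ∀ g, g ∈ γ.support ↔ g ∈ α.support ∧ π g = π g1 := by
      intro g
      rw [hγ]
      unfold fibre
      rw [Finsupp.support_filter, Finset.mem_filter]
    set γ' : G →₀ ℂ := γ.mapDomain (fun x => g1⁻¹ * x) with hγ'
    have hsupp : ∀ g ∈ γ'.support, g ∈ π.ker := by
      intro g hg
      obtain ⟨t, ht, rfl⟩ := Finset.mem_image.1 (Finsupp.mapDomain_support hg)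
      rw [MonoidHom.mem_ker, map_mul, map_inv, ((hγs t).1 ht).2, inv_mul_cancel]
    obtain ⟨b, hb⟩ := X190.NC.exists_inc π.ker (MonoidAlgebra.ofCoeff γ') hsupp
    have hγ'0 : γ' ≠ 0 := by
      intro h0
      have h5 : γ' (g1⁻¹ * g1) = γ g1 :=
        Finsupp.mapDomain_apply (mul_right_injective g1⁻¹) γ g1
      rw [h0] at h5
      exact (Finsupp.mem_support_iff.1 ((hγs g1).2 ⟨hg1, rfl⟩)) h5.symm
    have hb0 : b.coeff ≠ 0 := by
      intro h0
      apply hγ'0
      have h5 := congrArg MonoidAlgebra.coeff hb
      rw [X190.NC.inc_coeff, h0, Finsupp.mapDomain_zero] at h5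
      exact h5.symm
    have h6 := X190.NC.injective_of_hom π.ker.subtype π.ker.subtype_injective b.coeff
      ((W649.ZL.regular_iff b.coeff).1 (hN b.coeff hb0))
    rw [← X190.NC.inc_coeff, hb] at h6
    change Function.Injective (W649.ZL.cop γ') at h6
    rw [hγ', W649.ZL.cop_mapDomain] at h6
    exact Function.Injective.of_comp (f := W649.ZL.Ltr g1⁻¹) h6

end Pool.Agent.Results.MP_0f25e6_al.QuotientLocallyIndicable
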