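import Pool.Agent.X190.PN.Elem2

set_option autoImplicit false

universe u

noncomputable section

namespace Pool.Agent.Results.MP_0f25e6_al.SmallKernels

/-- `α * f` is nonzero for every nonzero square-summable `f`, where
`(α * f)(g) = ∑ α(k) f(k⁻¹ g)`. -/
def Regular {G : Type u} [Group G] (α : G →₀ ℂ) : Prop :=
  ∀ f : G → ℂ, Memℓp f 2 → f ≠ 0 → ∃ g : G, ∑ k ∈ α.support, α k * f (k⁻¹ * g) ≠ 0

/-- The kernel of `α` on `l2(G)`: all square-summable `f` with `α * f = 0`. -/
def kernel {G : Type u} [Group G] (α : G →₀ ℂ) : Set (lp (fun _ : G => ℂ) 2) :=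
  {f | ∀ g : G, ∑ k ∈ α.support, α k * f (k⁻¹ * g) = 0}

open Classical in
/-- The nullity of `α`, that is the von Neumann dimension of its kernel: one minus the square of the
distance from the basis vector at `1` to the kernel. -/
def nullity {G : Type u} [Group G] (α : G →₀ ℂ) : ℝ :=
  1 - Metric.infDist (lp.single (E := fun _ : G => ℂ) 2 (1 : G) (1 : ℂ)) (kernel α) ^ 2

/-- The set of the nullities of all nonzero elements of the group ring of `G` with coefficients in
the subring `R` of the complex numbers. -/
def nullities (R : Subring ℂ) (G : Type u) [Group G] : Set ℝ :=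
  {r | ∃ α : G →₀ ℂ, α ≠ 0 ∧ (∀ g, α g ∈ R) ∧ r = nullity α}

/-- The only element of finite order is the identity. -/
def TorsionFree (G : Type u) [Group G] : Prop :=
  ∀ (g : G) (n : ℕ), 0 < n → g ^ n = 1 → g = 1

theorem nullity_eq {G : Type u} [Group G] (α : G →₀ ℂ) : nullity α = X190.PN.nul α :=
  W649.ZL.kerDim_eq_vd α

theorem regular_iff {G : Type u} [Group G] (α : G →₀ ℂ) : Regular α ↔ nullity α = 0 := by
  rw [nullity_eq, ← X190.PN.injective_iff]
  exact W649.ZL.regular_iff α

theorem nullities_eq (R : Subring ℂ) (G : Type u) [Group G] : nullities R G = X190.PN.NN R G := by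
  ext r
  constructor
  · rintro ⟨α, h0, hα, rfl⟩
    rw [nullity_eq]
    exact ⟨X190.PN.nul_lt_one α h0, α, hα, rfl⟩
  · rintro ⟨h1, α, hα, rfl⟩
    exact ⟨α, X190.PN.ne_zero_of_nul α h1, hα, (nullity_eq α).symm⟩

/-- Let `R` be a subring of the complex numbers which is closed under complex conjugation (for
example all complex numbers, or all integers). The nullity of an element of a group ring is the von
Neumann dimension of its kernel, and an element is regular if and only if its nullity is zero.

1. There is a torsion-free group `U` such that for every such `R` all nullities of nonzero elements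
of the group rings `R G` of all torsion-free groups `G` are nullities of nonzero elements of `R U`,
and either they are all zero, or they are dense in the interval `[0, 1]`.

2. For every such `R` all nonzero elements of the group rings `R G` of all torsion-free groups `G`
are regular if and only if there is no countable torsion-free group `Q` for which the nullities of
the nonzero elements of `R Q` are dense in `[0, 1]`. -/
theorem result :
    (∀ (G : Type u) [Group G] (α : G →₀ ℂ), Regular α ↔ nullity α = 0) ∧
    (∃ (U : Type) (_ : Group U), TorsionFree U ∧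
      ∀ R : Subring ℂ, (∀ z ∈ R, (starRingEnd ℂ) z ∈ R) →
        (∀ (G : Type u) [Group G], TorsionFree G → nullities R G ⊆ nullities R U) ∧
        (nullities R U = {0} ∨ closure (nullities R U) = Set.Icc 0 1)) ∧
    (∀ R : Subring ℂ, (∀ z ∈ R, (starRingEnd ℂ) z ∈ R) →
      ((∀ (G : Type u) [Group G], TorsionFree G → ∀ α : G →₀ ℂ, α ≠ 0 → (∀ g, α g ∈ R) →
        Regular α) ↔
      ¬ ∃ (Q : Type) (_ : Group Q), Countable Q ∧ TorsionFree Q ∧
        closure (nullities R Q) = Set.Icc 0 1)) := by
  refine ⟨fun G _ α => regular_iff α, ⟨X190.PN.UU, inferInstance, X190.PN.UU_tf, ?_⟩, ?_⟩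
  · intro R hR
    constructor
    · intro G _ hG
      rw [nullities_eq, nullities_eq]
      exact X190.PN.NN_sub_UU R hG
    · rw [nullities_eq]
      exact X190.PN.NN_UU R hR
  · intro R hR
    constructor
    · rintro h ⟨Q, _, hQ, hTF, hcl⟩
      have h1 : (1 : ℝ) ∈ closure (nullities R Q) := by
        rw [hcl]
        exact ⟨zero_le_one, le_rfl⟩
      rw [Metric.mem_closure_iff] at h1
      obtain ⟨r, hr, hd⟩ := h1 1 one_pos
      have hr0 : r ≠ 0 := by
        rintro rfl
        rw [dist_zero_right, norm_one] at hd
        exact lt_irrefl _ hd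
      have hTF' : TorsionFree (ULift.{u} Q) := by
        intro g n hn hg
        apply ULift.down_injective
        exact hTF g.down n hn (congrArg ULift.down hg)
      rw [nullities_eq] at hr
      let e : ULift.{u} Q ≃* Q := MulEquiv.ulift
      have hr' := X190.PN.NN_mono R e.symm.toMonoidHom e.symm.injective hr
      rw [← nullities_eq] at hr'
      obtain ⟨α, hα0, hα, hrα⟩ := hr'
      have h2 := h (ULift.{u} Q) hTF' α hα0 hα
      rw [regular_iff] at h2
      exact hr0 (hrα.trans h2)
    · intro h G _ hG α hα0 hα
      rw [regular_iff]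
      have hr : nullity α ∈ nullities R G := ⟨α, hα0, hα, rfl⟩
      rw [nullities_eq] at hr
      have hrU := X190.PN.NN_sub_UU R hG hr
      rcases X190.PN.NN_UU R hR with h1 | h1
      · rw [h1] at hrU
        exact hrU
      · exfalso
        apply h
        obtain ⟨Q, _, hQ, hTF, hcl⟩ := X190.PN.NN_countable R X190.PN.UU_tf h1
        exact ⟨Q, inferInstance, hQ, hTF, by rw [nullities_eq]; exact hcl⟩

end Pool.Agent.Results.MP_0f25e6_al.SmallKernels
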